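import Pool.Agent.Helper83.PT.St6

/-! Project PT (MP_26f0da_lc), module M1: the interpolation identity over `ZMod p` with digits in base `B`
(ported from helper2, project DC). -/

set_option autoImplicit false

namespace Pool.Agent.Helper83.PT.N48

open Pool.Agent.Helper73.DC
open Finset
open scoped Classical

theorem dg_lt' {B : ℕ} (hB : 0 < B) (v i : ℕ) : dg B v i < B := Nat.mod_lt _ hB

theorem dg_succ' (B v i : ℕ) : dg B v (i + 1) = dg B (v / B) i := by
  unfold dg
  rw [pow_succ', Nat.div_div_eq_div_mul]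

theorem dg_ext' {B : ℕ} (hB : 0 < B) : ∀ (D : ℕ) {a v : ℕ}, a < B ^ D → v < B ^ D →
    (∀ i < D, dg B a i = dg B v i) → a = v := by
  intro D
  induction D with
  | zero =>
    intro a v ha hv _
    rw [pow_zero] at ha hv
    omega
  | succ D ih =>
    intro a v ha hv h
    have h0 : a % B = v % B := by
      have := h 0 (by omega)
      simpa [dg] using this
    have h1 : a / B = v / B := by
      apply ih
      · rw [Nat.div_lt_iff_lt_mul hB, ← pow_succ]
        exact ha
      · rw [Nat.div_lt_iff_lt_mul hB, ← pow_succ]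
        exact hv
      · intro i hi
        have := h (i + 1) (by omega)
        rwa [dg_succ', dg_succ'] at this
    rw [← Nat.div_add_mod a B, ← Nat.div_add_mod v B, h0, h1]

theorem cast_ne {p : ℕ} [Fact p.Prime] {B u w : ℕ} (hBp : B ≤ p) (hu : u < B) (hw : w < B) (h : u ≠ w) :
    ((u : ℕ) : ZMod p) - ((w : ℕ) : ZMod p) ≠ 0 := by
  intro h0
  apply h
  have h1 := sub_eq_zero.1 h0
  have h2 := (ZMod.natCast_eq_natCast_iff' u w p).1 h1
  rwa [Nat.mod_eq_of_lt (by omega), Nat.mod_eq_of_lt (by omega)] at h2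

theorem dl_digits (p B D : ℕ) [Fact p.Prime] (hB : 2 ≤ B) (hBp : B ≤ p) {a v : ℕ} (ha : a < B ^ D)
    (hv : v < B ^ D) :
    dl p B D a (fun i => (dg B v i : ZMod p)) = if a = v then 1 else 0 := by
  have hB0 : 0 < B := by omega
  unfold dl
  split_ifs with h
  · subst h
    refine prod_eq_one fun j _ => ?_
    split_ifs with h1
    · rfl
    · exact mul_inv_cancel₀ (cast_ne hBp (dg_lt' hB0 _ _) (Nat.mod_lt _ hB0) (fun h2 => h1 h2.symm))
  · obtain ⟨i, hi, hne⟩ : ∃ i < D, dg B a i ≠ dg B v i := by
      by_contra hcon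
      push Not at hcon
      exact h (dg_ext' hB0 D ha hv hcon)
    have hvB := dg_lt' hB0 v i
    have hj : i * B + dg B v i < D * B := by
      calc i * B + dg B v i < i * B + B := by omega
        _ = (i + 1) * B := by ring
        _ ≤ D * B := Nat.mul_le_mul_right _ hi
    have e1 : (i * B + dg B v i) / B = i := by
      rw [mul_comm, Nat.mul_add_div hB0, Nat.div_eq_of_lt hvB, add_zero]
    have e2 : (i * B + dg B v i) % B = dg B v i := by
      rw [mul_comm, Nat.mul_add_mod, Nat.mod_eq_of_lt hvB]
    refine prod_eq_zero (mem_range.2 hj) ?_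
    rw [e1, e2, if_neg (fun h3 => hne h3.symm), sub_self, zero_mul]

/-- sums of powers of a generator -/
theorem pow_sum {p : ℕ} [Fact p.Prime] {om : ZMod p} (hom : om ≠ 0) (hgen : ∀ d, 0 < d → d < p - 1 → om ^ d ≠ 1)
    {k : ℕ} (hk : k < p - 1) : ∑ j ∈ range (p - 1), (om ^ (j + 1)) ^ k = if k = 0 then -1 else 0 := by
  have hp1 : 1 ≤ p := (Fact.out : p.Prime).one_lt.le
  split_ifs with h
  · subst h
    simp [Nat.cast_sub hp1]
  · have h1 : om ^ k ≠ 1 := hgen k (by omega) hk
    have e : ∀ j ∈ range (p - 1), (om ^ (j + 1)) ^ k = om ^ k * (om ^ k) ^ j := by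
      intro j _
      rw [← pow_mul, ← pow_mul, ← pow_add]
      congr 1
      ring
    rw [sum_congr rfl e, ← mul_sum]
    have hg := mul_geom_sum (om ^ k) (p - 1)
    rw [← pow_mul, mul_comm k (p - 1), pow_mul, ZMod.pow_card_sub_one_eq_one hom, one_pow, sub_self] at hg
    rcases mul_eq_zero.1 hg with h2 | h2
    · exact absurd (sub_eq_zero.1 h2) h1
    · rw [h2, mul_zero]

open Polynomial in
/-- summation of a polynomial over the powers of a generator -/
theorem poly_sum {p : ℕ} [Fact p.Prime] {om : ZMod p} (hom : om ≠ 0) (hgen : ∀ d, 0 < d → d < p - 1 → om ^ d ≠ 1)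
    (Q : Polynomial (ZMod p)) (hQ : Q.natDegree < p - 1) :
    ∑ j ∈ range (p - 1), Q.eval (om ^ (j + 1)) = - Q.eval 0 := by
  have e : ∀ j ∈ range (p - 1), Q.eval (om ^ (j + 1)) = ∑ k ∈ range (p - 1), Q.coeff k * (om ^ (j + 1)) ^ k := by
    intro j _
    exact Polynomial.eval_eq_sum_range' hQ _
  rw [sum_congr rfl e, sum_comm]
  have e2 : ∀ k ∈ range (p - 1), ∑ j ∈ range (p - 1), Q.coeff k * (om ^ (j + 1)) ^ k = if k = 0 then - Q.coeff 0 else 0 := by
    intro k hk
    rw [← mul_sum, pow_sum hom hgen (mem_range.1 hk)]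
    split_ifs with h
    · rw [h]; ring
    · ring
  rw [sum_congr rfl e2, sum_ite_eq' (range (p - 1)) 0 (fun _ => - Q.coeff 0), if_pos (mem_range.2 (by omega)),
    Polynomial.coeff_zero_eq_eval_zero]

open Polynomial in
/-- the indicator along a line, as a polynomial -/
noncomputable def dP (p B D a : ℕ) (tx : ℕ → ZMod p) (va : ℕ) : Polynomial (ZMod p) :=
  ∏ j ∈ range (D * B), if j % B = dg B a (j / B) then 1 else
    (X * C (tx (j / B)) + C (dg B va (j / B) : ZMod p) - C ((j % B : ℕ) : ZMod p)) *
      C (((dg B a (j / B) : ℕ) : ZMod p) - ((j % B : ℕ) : ZMod p))⁻¹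

open Polynomial in
theorem dP_eval (p B D a : ℕ) (tx : ℕ → ZMod p) (va : ℕ) (x : ZMod p) :
    (dP p B D a tx va).eval x = dl p B D a (fun i => x * tx i + (dg B va i : ZMod p)) := by
  unfold dP dl
  rw [Polynomial.eval_prod]
  refine prod_congr rfl fun j _ => ?_
  split_ifs
  · rw [Polynomial.eval_one]
  · rw [Polynomial.eval_mul, Polynomial.eval_C, Polynomial.eval_sub, Polynomial.eval_add, Polynomial.eval_mul,
      Polynomial.eval_X, Polynomial.eval_C, Polynomial.eval_C, Polynomial.eval_C]

open Polynomial in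
theorem dP_deg (p B D a : ℕ) [Fact p.Prime] (tx : ℕ → ZMod p) (va : ℕ) :
    (dP p B D a tx va).natDegree ≤ D * B := by
  unfold dP
  refine (Polynomial.natDegree_prod_le _ _).trans ?_
  calc ∑ j ∈ range (D * B), _ ≤ ∑ j ∈ range (D * B), 1 := by
        refine sum_le_sum fun j _ => ?_
        split_ifs
        · rw [Polynomial.natDegree_one]; omega
        · refine (Polynomial.natDegree_mul_le).trans ?_
          rw [Polynomial.natDegree_C, add_zero]
          refine (Polynomial.natDegree_sub_le _ _).trans (max_le ?_ ?_)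
          · refine (Polynomial.natDegree_add_le _ _).trans (max_le ?_ ?_)
            · refine (Polynomial.natDegree_mul_le).trans ?_
              rw [Polynomial.natDegree_X, Polynomial.natDegree_C]
            · rw [Polynomial.natDegree_C]; omega
          · rw [Polynomial.natDegree_C]; omega
    _ = D * B := by simp

open Polynomial in
theorem mM1 : StM1 := by
  intro p B D _ om Ga tx ty va vb hB hBp hL hom hgen hva hvb
  obtain ⟨Q, hQ⟩ : ∃ Q : Polynomial (ZMod p), Q = ∑ a ∈ range (B ^ D), ∑ b ∈ range (B ^ D),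
      dP p B D a tx va * dP p B D b ty vb * C (Ga a b) := ⟨_, rfl⟩
  have hQe : ∀ x, Q.eval x = ∑ a ∈ range (B ^ D), ∑ b ∈ range (B ^ D),
      dl p B D a (fun i => x * tx i + (dg B va i : ZMod p)) *
        dl p B D b (fun i => x * ty i + (dg B vb i : ZMod p)) * Ga a b := by
    intro x
    rw [hQ, Polynomial.eval_finsetSum]
    refine sum_congr rfl fun a _ => ?_
    rw [Polynomial.eval_finsetSum]
    refine sum_congr rfl fun b _ => ?_
    rw [Polynomial.eval_mul, Polynomial.eval_mul, Polynomial.eval_C, dP_eval, dP_eval]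
  have hQd : Q.natDegree ≤ 2 * (D * B) := by
    rw [hQ]
    refine Polynomial.natDegree_sum_le_of_forall_le _ _ fun a _ => ?_
    refine Polynomial.natDegree_sum_le_of_forall_le _ _ fun b _ => ?_
    refine (Polynomial.natDegree_mul_le).trans ?_
    rw [Polynomial.natDegree_C, add_zero]
    refine (Polynomial.natDegree_mul_le).trans ?_
    have := dP_deg p B D a tx va
    have := dP_deg p B D b ty vb
    omega
  have h := poly_sum hom hgen Q (by omega)
  simp only [hQe] at h
  rw [h]
  congr 1
  simp only [zero_mul, zero_add]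
  have e : ∀ a ∈ range (B ^ D), ∑ b ∈ range (B ^ D),
      dl p B D a (fun i => (dg B va i : ZMod p)) * dl p B D b (fun i => (dg B vb i : ZMod p)) * Ga a b =
      if a = va then Ga va vb else 0 := by
    intro a ha
    have e2 : ∀ b ∈ range (B ^ D),
        dl p B D a (fun i => (dg B va i : ZMod p)) * dl p B D b (fun i => (dg B vb i : ZMod p)) * Ga a b =
        if b = vb then (if a = va then Ga va vb else 0) else 0 := by
      intro b hb
      rw [dl_digits p B D hB hBp (mem_range.1 ha) hva, dl_digits p B D hB hBp (mem_range.1 hb) hvb]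
      split_ifs with h1 h2 h2
      · rw [h1, h2]; ring
      · ring
      · ring
      · ring
    rw [sum_congr rfl e2, sum_ite_eq', if_pos (mem_range.2 hvb)]
  rw [sum_congr rfl e, sum_ite_eq', if_pos (mem_range.2 hva)]

end Pool.Agent.Helper83.PT.N48
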